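import Pool.Agent.Lev.All2

set_option autoImplicit false

/-!
For semigroups of rational functions of degree at least two with a non-special element, right
amenability, right reversibility, the relations `A^(2k) = A^k ∘ B^l, B^(2l) = B^l ∘ A^k`, the
absence of free subsemigroups of rank two and inclusion in some `E(P)` are equivalent.
-/

namespace Pool.Agent.Results.MP_9c370f_an.FiveConditions

open Filter Topology MeasureTheory

/-- the composition `f ∘ g` of rational functions -/
noncomputable def comp (f g : RatFunc ℂ) : RatFunc ℂ :=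
  Polynomial.aeval g f.num / Polynomial.aeval g f.denom

/-- the degree of a rational function -/
noncomputable def deg (f : RatFunc ℂ) : ℕ := max f.num.natDegree f.denom.natDegree

/-- the `n`-th compositional iterate, `iter P 0 = z` -/
noncomputable def iter (P : RatFunc ℂ) (n : ℕ) : RatFunc ℂ := (comp P)^[n] RatFunc.X

/-- `f` is a Lattès map: there are a lattice `ℤω₁ + ℤω₂`, an affine map `z ↦ a z + b` with
`a ω₁, a ω₂` in the lattice and a nonconstant meromorphic function `θ` with periods `ω₁, ω₂` such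
that `f (θ z) = θ (a z + b)` -/
def Lattes (f : RatFunc ℂ) : Prop :=
  ∃ (ω₁ ω₂ a b : ℂ) (θ : ℂ → ℂ), LinearIndependent ℝ ![ω₁, ω₂] ∧
    (∃ m₁ n₁ m₂ n₂ : ℤ, a * ω₁ = (m₁ : ℂ) * ω₁ + (n₁ : ℂ) * ω₂ ∧
      a * ω₂ = (m₂ : ℂ) * ω₁ + (n₂ : ℂ) * ω₂) ∧
    MeromorphicOn θ Set.univ ∧
    (∀ z : ℂ, θ (z + ω₁) = θ z ∧ θ (z + ω₂) = θ z) ∧
    (∃ z : ℂ, DifferentiableAt ℂ θ z ∧ deriv θ z ≠ 0) ∧
    (∀ᶠ z in codiscrete ℂ, RatFunc.eval (RingHom.id ℂ) (θ z) f = θ (a * z + b))

/-- `f` is conjugate by a Möbius transformation `m` to `z ^ n`, `z ^ (-n)`, `T_n` or `-T_n` -/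
def PowerOrChebyshev (f : RatFunc ℂ) : Prop :=
  ∃ m : RatFunc ℂ, deg m = 1 ∧ ∃ n : ℕ,
    (comp m f = comp (RatFunc.X ^ n) m ∨ comp m f = comp (RatFunc.X ^ n)⁻¹ m ∨
      comp m f = comp (algebraMap (Polynomial ℂ) (RatFunc ℂ)
        (Polynomial.Chebyshev.T ℂ (n : ℤ))) m ∨
      comp m f = comp (-(algebraMap (Polynomial ℂ) (RatFunc ℂ)
        (Polynomial.Chebyshev.T ℂ (n : ℤ)))) m)

/-- special rational functions -/
def Special (f : RatFunc ℂ) : Prop := Lattes f ∨ PowerOrChebyshev f

/-- the finite solutions `w` of `f w = z`, with multiplicity -/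
noncomputable def fibre (f : RatFunc ℂ) (z : ℂ) : Multiset ℂ :=
  (f.num - Polynomial.C z * f.denom).roots

/-- `μ` is the measure of maximal entropy of `P`: it is a probability measure and for almost every
point `z` the normalised counting measures `(deg P) ^ (-n) * ∑_{P^n w = z} δ_w` converge to `μ`.
(Theorem of Brolin, Lyubich and Freire-Lopes-Mañé: these measures converge to the unique measure
of maximal entropy for every `z` outside the exceptional set, which has at most two points; this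
measure has no atoms, in particular it does not charge the point at infinity.) -/
def IsMaxEntropy (P : RatFunc ℂ) (μ : Measure ℂ) : Prop :=
  IsProbabilityMeasure μ ∧ ∀ᵐ z : ℂ, ∀ φ : ℂ → ℝ, Continuous φ → HasCompactSupport φ →
    Tendsto (fun n : ℕ => ((fibre (iter P n) z).map φ).sum / (deg P : ℝ) ^ n) atTop
      (𝓝 (∫ w, φ w ∂μ))

/-- the semigroup `E(P)` of all rational functions of degree at least two with the same measure of
maximal entropy as `P` -/
def E (P : RatFunc ℂ) : Set (RatFunc ℂ) :=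
  {X | 2 ≤ deg X ∧ ∃ μ : Measure ℂ, IsMaxEntropy X μ ∧ IsMaxEntropy P μ}

/-- `S` is right amenable: there is a finitely additive probability measure `m` on all subsets of
`S` with `m (T A⁻¹) = m T` for all `T ⊆ S` and `A ∈ S`, where `T A⁻¹ = {W ∈ S : W ∘ A ∈ T}` -/
def RightAmenable (S : Set (RatFunc ℂ)) : Prop :=
  ∃ m : Set (RatFunc ℂ) → ℝ, (∀ T, T ⊆ S → 0 ≤ m T) ∧ m S = 1 ∧
    (∀ T T', T ⊆ S → T' ⊆ S → Disjoint T T' → m (T ∪ T') = m T + m T') ∧
    ∀ T, T ⊆ S → ∀ A ∈ S, m {W | W ∈ S ∧ comp W A ∈ T} = m T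

/-- `S` is right reversible: for all `A, B ∈ S` there are `X, Y ∈ S` with `X ∘ A = Y ∘ B` -/
def RightReversible (S : Set (RatFunc ℂ)) : Prop :=
  ∀ A ∈ S, ∀ B ∈ S, ∃ X ∈ S, ∃ Y ∈ S, comp X A = comp Y B

/-- condition 3: for all `A, B ∈ S` there are `k, l ≥ 1` with `A^(2k) = A^k ∘ B^l` and
`B^(2l) = B^l ∘ A^k` -/
def ConditionR (S : Set (RatFunc ℂ)) : Prop :=
  ∀ A ∈ S, ∀ B ∈ S, ∃ k l : ℕ, 1 ≤ k ∧ 1 ≤ l ∧
    iter A (2 * k) = comp (iter A k) (iter B l) ∧ iter B (2 * l) = comp (iter B l) (iter A k)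

/-- the composition of a word in two functions -/
noncomputable def word (A B : RatFunc ℂ) : List Bool → RatFunc ℂ
  | [] => RatFunc.X
  | b :: w => comp (if b then A else B) (word A B w)

/-- `S` has no free subsemigroup of rank two: there are no `A, B ∈ S` such that distinct nonempty
words in `A, B` give distinct compositions -/
def NoFreeSubsemigroup (S : Set (RatFunc ℂ)) : Prop :=
  ¬ ∃ A ∈ S, ∃ B ∈ S, ∀ w w' : List Bool, w ≠ [] → w' ≠ [] → w ≠ w' →
    word A B w ≠ word A B w'

/-- Every rational function of degree at least two has exactly one measure of maximal entropy, and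
for every semigroup `S` of rational functions of degree at least two that contains a non-special
function the conditions 1-5 are equivalent. -/
theorem result :
    (∀ P : RatFunc ℂ, 2 ≤ deg P → ∃! μ : Measure ℂ, IsMaxEntropy P μ) ∧
    ∀ S : Set (RatFunc ℂ), (∀ f ∈ S, ∀ g ∈ S, comp f g ∈ S) → (∀ f ∈ S, 2 ≤ deg f) →
      (∃ f ∈ S, ¬ Special f) →
      List.TFAE [RightAmenable S, RightReversible S, ConditionR S, NoFreeSubsemigroup S,
        ∃ P : RatFunc ℂ, 2 ≤ deg P ∧ ¬ Special P ∧ S ⊆ E P] := by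
  refine ⟨fun P hP => ?_, fun S h1 h2 h3 => ?_⟩
  · obtain ⟨μ, h1, h2⟩ := Pool.Agent.Lev.t_exun P hP
    exact ⟨μ, h1, h2⟩
  · have hw : ∀ A B : RatFunc ℂ, ∀ w, word A B w = Pool.Agent.Lev.word A B w := by
      intro A B w
      induction w with
      | nil => rfl
      | cons b w ih =>
        show comp (if b then A else B) (word A B w) = Pool.Agent.Lev.cp (if b then A else B) _
        rw [ih]; rfl
    have hN : NoFreeSubsemigroup S ↔ Pool.Agent.Lev.NoFree S := by
      unfold NoFreeSubsemigroup Pool.Agent.Lev.NoFree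
      simp only [hw]
    have h := Pool.Agent.Lev.t_t9c S h1 h2 h3
    rw [hN]
    exact h

end Pool.Agent.Results.MP_9c370f_an.FiveConditions
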